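import Pool.Agent.W2helper2.LL.BJStm
import Pool.Agent.W2helper2.LL.Opn
import Pool.Agent.W2helper46.LL.INV

/-!
# Project LL, piece EX: the Eisenstein function at infinity
-/

set_option autoImplicit false

noncomputable section

namespace Pool.Agent.W2helper53.LL

open IsDedekindDomain Polynomial Matrix WithZero
open Pool.Agent.W2helper63.LL Pool.Agent.W2helper2.LL
open scoped Classical

section loc

variable {L : Type} [Field L] [Valued L (WithZero (Multiplicative ℤ))]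

theorem det_ne (g : GL (Fin 2) L) : Valued.v g.1.det ≠ 0 := by
  rw [Ne, Valuation.zero_iff]
  exact g.isUnit.map Matrix.detMonoidHom |>.ne_zero

/-- logarithm of the norm of the determinant -/
def Lg (g : GL (Fin 2) L) : ℤ := log (Valued.v g.1.det)

theorem Lg_mul (g k : GL (Fin 2) L) : Lg (g * k) = Lg g + Lg k := by
  unfold Lg
  rw [Units.val_mul, Matrix.det_mul, map_mul, log_mul (det_ne g) (det_ne k)]

theorem det_le {M : Matrix (Fin 2) (Fin 2) L} (h : ∀ i j, Valued.v (M i j) ≤ 1) :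
    Valued.v M.det ≤ 1 := by
  rw [Matrix.det_fin_two]
  refine (Valued.v.map_sub _ _).trans (max_le ?_ ?_) <;> rw [map_mul] <;>
    exact mul_le_one' (h _ _) (h _ _)

theorem det_integral {k : GL (Fin 2) L} (h : Integral k) : Valued.v k.1.det = 1 := by
  have h1 := det_le fun i j => (h i j).1
  have h2 := det_le fun i j => (h i j).2
  have h3 : Valued.v k.1.det * Valued.v k⁻¹.1.det = 1 := by
    rw [← map_mul, ← Matrix.det_mul, ← Units.val_mul, mul_inv_cancel, Units.val_one,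
      Matrix.det_one, map_one]
  refine le_antisymm h1 ?_
  calc (1 : WithZero (Multiplicative ℤ)) = Valued.v k.1.det * Valued.v k⁻¹.1.det := h3.symm
    _ ≤ Valued.v k.1.det * 1 := by gcongr
    _ = _ := mul_one _

theorem Lg_integral {k : GL (Fin 2) L} (h : Integral k) : Lg k = 0 := by
  unfold Lg
  rw [det_integral h, log_one]

/-- entries integral and determinant a unit -/
theorem integral_of {k : GL (Fin 2) L} (h : ∀ i j, Valued.v (k.1 i j) ≤ 1)
    (hd : Valued.v k.1.det = 1) : Integral k := by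
  intro i j
  refine ⟨h i j, ?_⟩
  have hd0 : k.1.det ≠ 0 := by
    intro h0
    rw [h0, map_zero] at hd
    exact zero_ne_one hd
  have h1 : k⁻¹.1 = k.1.det⁻¹ • k.1.adjugate := by
    rw [Matrix.coe_units_inv, Matrix.inv_def, Ring.inverse_eq_inv']
  rw [h1, Matrix.smul_apply, smul_eq_mul, map_mul, map_inv₀, hd, inv_one, one_mul,
    Matrix.adjugate_fin_two]
  fin_cases i <;> fin_cases j <;> simp [h, Valuation.map_neg]

end loc

theorem Lg_rho (ρ : GL (Fin 2) R) : Lg (GeneralLinearGroup.map io ρ) = 0 := by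
  have h1 : (GeneralLinearGroup.map io ρ).1.det = io ρ.1.det := by
    change (ρ.1.map io).det = _
    exact (RingHom.map_det io ρ.1).symm
  have h2 : IsUnit ρ.1.det := ρ.isUnit.map Matrix.detMonoidHom
  obtain ⟨r, hr, hr'⟩ := Polynomial.isUnit_iff.1 h2
  have h3 : ∀ z : ZMod 2, IsUnit z → z = 1 := by decide
  unfold Lg
  rw [h1, ← hr', h3 r hr, map_one, map_one, map_one, log_one]

theorem bor_comm (z : Kinfˣ) (g : GL (Fin 2) Kinf) : g * bor z 0 z = bor z 0 z * g :=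
  (Pool.Agent.W2helper46.LL.sc_comm z g).symm

theorem Lg_bor (z : Kinfˣ) (j : ℤ) (hz : Valued.v (z : Kinf) = exp j) :
    Lg (bor z 0 z) = 2 * j := by
  have h1 : (bor z 0 z : GL (Fin 2) Kinf).1.det = (z : Kinf) * z := by
    change (!![(z : Kinf), 0; 0, (z : Kinf)] : Matrix (Fin 2) (Fin 2) Kinf).det = _
    rw [Matrix.det_fin_two_of]
    ring
  unfold Lg
  rw [h1, map_mul, hz, ← exp_add, log_exp]
  ring

theorem Lg_Dm : Lg Dm = 1 := by
  have h1 : (Dm : GL (Fin 2) Kinf).1.det = (Tu : Kinf) := by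
    change (!![((Tu : Kinfˣ) : Kinf), 0; 0, ((1 : Kinfˣ) : Kinf)] :
      Matrix (Fin 2) (Fin 2) Kinf).det = _
    rw [Matrix.det_fin_two_of]
    simp
  unfold Lg
  rw [h1, Pool.Agent.W2helper46.LL.val_T, log_exp]

theorem integral_sw : Integral (sw : GL (Fin 2) Kinf) := by
  intro i j
  have h1 : (sw : GL (Fin 2) Kinf)⁻¹ = sw := rfl
  rw [h1]
  have : Valued.v ((sw : GL (Fin 2) Kinf).1 i j) ≤ 1 := by
    fin_cases i <;> fin_cases j <;> simp [sw]
  exact ⟨this, this⟩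

theorem integral_nu : Integral (nu 1 : GL (Fin 2) Kinf) := by
  refine integral_of (fun i j => ?_) ?_
  · fin_cases i <;> fin_cases j <;> simp [nu, bor]
  · have h1 : (nu 1 : GL (Fin 2) Kinf).1.det = 1 := by
      change (!![((1 : Kinfˣ) : Kinf), 1; 0, ((1 : Kinfˣ) : Kinf)] :
        Matrix (Fin 2) (Fin 2) Kinf).det = _
      rw [Matrix.det_fin_two_of]
      simp
    rw [h1, map_one]

theorem iw_conj {i : GL (Fin 2) Kinf} (hi : Iw i) : ∃ k, Integral k ∧ i * Dm = Dm * k := by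
  refine ⟨Dm⁻¹ * i * Dm, ?_, by group⟩
  have hT := Pool.Agent.W2helper46.LL.val_T
  have e : (Dm⁻¹ * i * Dm).1 = !![i.1 0 0, (Tu : Kinf)⁻¹ * i.1 0 1; i.1 1 0 * (Tu : Kinf),
      i.1 1 1] := by
    have hT0 : (Tu : Kinf) ≠ 0 := Tu.ne_zero
    rw [Units.val_mul, Units.val_mul]
    change (!![((Tu⁻¹ : Kinfˣ) : Kinf), -((Tu⁻¹ : Kinfˣ) : Kinf) * 0 * (((1 : Kinfˣ)⁻¹ : Kinfˣ) :
      Kinf); 0, (((1 : Kinfˣ)⁻¹ : Kinfˣ) : Kinf)] : Matrix (Fin 2) (Fin 2) Kinf) * i.1 *
      (!![(Tu : Kinf), 0; 0, ((1 : Kinfˣ) : Kinf)] : Matrix (Fin 2) (Fin 2) Kinf) = _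
    ext a b
    fin_cases a <;> fin_cases b <;>
      simp [Matrix.mul_apply, Fin.sum_univ_two, Matrix.vecMul, Matrix.vecHead, Matrix.vecTail]
    field_simp
  refine integral_of ?_ ?_
  · intro a b
    rw [e]
    fin_cases a <;> fin_cases b
    · exact (hi.1 0 0).1
    · change Valued.v ((Tu : Kinf)⁻¹ * i.1 0 1) ≤ 1
      rw [map_mul, map_inv₀, hT, ← WithZero.exp_neg]
      refine mul_le_one' ?_ (hi.1 0 1).1
      rw [← exp_zero, exp_le_exp]
      norm_num
    · change Valued.v (i.1 1 0 * (Tu : Kinf)) ≤ 1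
      rw [map_mul, hT]
      have h1 := hi.2
      by_cases h0 : Valued.v (i.1 1 0) = 0
      · rw [h0, zero_mul]
        exact zero_le'
      · rw [← exp_log h0, ← exp_add, ← exp_zero, exp_le_exp]
        rw [← exp_log h0, ← exp_zero, exp_lt_exp] at h1
        omega
    · exact (hi.1 1 1).1
  · have h2 : (Dm⁻¹ * i * Dm).1.det = i.1.det := by
      have h3 : (Dm⁻¹ : GL (Fin 2) Kinf).1.det * (Dm : GL (Fin 2) Kinf).1.det = 1 := by
        rw [← Matrix.det_mul, ← Units.val_mul, inv_mul_cancel, Units.val_one, Matrix.det_one]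
      rw [Units.val_mul, Units.val_mul, Matrix.det_mul, Matrix.det_mul]
      calc _ = i.1.det * ((Dm⁻¹ : GL (Fin 2) Kinf).1.det * (Dm : GL (Fin 2) Kinf).1.det) := by ring
        _ = _ := by rw [h3, mul_one]
    rw [h2]
    exact det_integral hi.1

theorem ww_Dm : ww pinf * Dm = sw := by
  apply Units.ext
  rw [Units.val_mul]
  change (!![0, 1; ((pinf : Kinfˣ) : Kinf), 0] : Matrix (Fin 2) (Fin 2) Kinf) *
    (!![(Tu : Kinf), 0; 0, ((1 : Kinfˣ) : Kinf)] : Matrix (Fin 2) (Fin 2) Kinf) = !![0, 1; 1, 0]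
  have h : ((pinf : Kinfˣ) : Kinf) * (Tu : Kinf) = 1 := by
    rw [← Units.val_mul]
    simp [pinf]
  ext a b
  fin_cases a <;> fin_cases b <;> simp [Matrix.mul_apply, Fin.sum_univ_two, h]

theorem ww_eq : ww pinf = Dm * bor pinf 0 pinf * sw := by
  apply Units.ext
  rw [Units.val_mul, Units.val_mul]
  change (!![0, 1; ((pinf : Kinfˣ) : Kinf), 0] : Matrix (Fin 2) (Fin 2) Kinf) =
    (!![(Tu : Kinf), 0; 0, ((1 : Kinfˣ) : Kinf)] : Matrix (Fin 2) (Fin 2) Kinf) *
    (!![((pinf : Kinfˣ) : Kinf), 0; 0, ((pinf : Kinfˣ) : Kinf)] : Matrix (Fin 2) (Fin 2) Kinf) *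
      !![0, 1; 1, 0]
  have h : (Tu : Kinf) * ((pinf : Kinfˣ) : Kinf) = 1 := by
    rw [← Units.val_mul]
    simp [pinf]
  ext a b
  fin_cases a <;> fin_cases b <;> simp [Matrix.mul_apply, Fin.sum_univ_two, h]

theorem ex : S_EX := by
  intro hF hM hTri hE4
  obtain ⟨M1, M2, M3, M4, M5⟩ := hM
  have hT := hTri hF hE4
  choose m hm using M1
  obtain ⟨h, hh⟩ : ∃ h : GL (Fin 2) Kinf → ℂ,
    h = fun g => (2 : ℂ) / 3 * (2 : ℂ) ^ (Lg g - 2 * m g) + (m g : ℂ) := ⟨_, rfl⟩
  have key : ∀ g n, IsMin g n → h g = (2 : ℂ) / 3 * (2 : ℂ) ^ (Lg g - 2 * n) + (n : ℂ) := by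
    intro g n hn
    rw [M2 g n (m g) hn (hm g), hh]
  have hint : ∀ g k, Integral k → h (g * k) = h g := by
    intro g k hk
    rw [key g (m g) (hm g), key (g * k) (m g) (M4 g k _ (hm g) hk), Lg_mul, Lg_integral hk,
      add_zero]
  have hrho : ∀ (ρ : GL (Fin 2) R) g, h (GeneralLinearGroup.map io ρ * g) = h g := by
    intro ρ g
    rw [key g (m g) (hm g), key _ (m g) (M3 ρ g _ (hm g)), Lg_mul, Lg_rho, zero_add]
  have hcen : ∀ g (z : Kinfˣ) (j : ℤ), Valued.v (z : Kinf) = exp j →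
      h (g * bor z 0 z) = h g + j := by
    intro g z j hz
    rw [key g (m g) (hm g), key _ (m g + j) (M5 g z j _ hz (hm g)), Lg_mul, Lg_bor z j hz]
    rw [show Lg g + 2 * j - 2 * (m g + j) = Lg g - 2 * m g by ring]
    push_cast
    ring
  have hsum : ∀ g, h (g * Dm) + h (g * sw * Dm) + h (g * (nu 1 * sw) * Dm) = 3 * h g + 2 := by
    intro g
    have l1 : Lg (g * Dm) = Lg g + 1 := by rw [Lg_mul, Lg_Dm]
    have l2 : Lg (g * sw * Dm) = Lg g + 1 := by
      rw [Lg_mul, Lg_mul, Lg_Dm, Lg_integral integral_sw, add_zero]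
    have l3 : Lg (g * (nu 1 * sw) * Dm) = Lg g + 1 := by
      rw [Lg_mul, Lg_mul, Lg_Dm, Lg_integral (intg_mul integral_nu integral_sw), add_zero]
    have p1 : (2 : ℂ) ^ (Lg g + 1 - 2 * m g) = 2 * 2 ^ (Lg g - 2 * m g) := by
      rw [show Lg g + 1 - 2 * m g = (Lg g - 2 * m g) + 1 by ring,
        zpow_add_one₀ (by norm_num : (2 : ℂ) ≠ 0)]
      ring
    have p2 : (2 : ℂ) ^ (Lg g + 1 - 2 * (m g + 1)) = 2⁻¹ * 2 ^ (Lg g - 2 * m g) := by
      rw [show Lg g + 1 - 2 * (m g + 1) = (Lg g - 2 * m g) - 1 by ring,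
        zpow_sub_one₀ (by norm_num : (2 : ℂ) ≠ 0)]
      ring
    rw [key g (m g) (hm g)]
    rcases hT g (m g) (hm g) with ⟨a, b, c⟩ | ⟨a, b, c⟩ | ⟨a, b, c⟩ | ⟨a, b, c, d⟩
    · rw [key _ _ a, key _ _ b, key _ _ c, l1, l2, l3, p1, p2]
      push_cast
      ring
    · rw [key _ _ a, key _ _ b, key _ _ c, l1, l2, l3, p1, p2]
      push_cast
      ring
    · rw [key _ _ a, key _ _ b, key _ _ c, l1, l2, l3, p1, p2]
      push_cast
      ring
    · rw [key _ _ a, key _ _ b, key _ _ c, l1, l2, l3, p1]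
      have h0 : Lg g - 2 * m g = 0 := by
        unfold Lg
        rw [d, log_exp]
        ring
      rw [h0, zpow_zero]
      push_cast
      ring
  refine ⟨fun g => h (g * Dm) - h g - 1, ?_, ?_, ?_, ?_, ?_⟩
  · intro ρ g
    rw [_root_.mul_assoc, hrho, hrho]
  · intro g i hi
    obtain ⟨k, hk, hk'⟩ := iw_conj hi
    rw [_root_.mul_assoc, hk', ← _root_.mul_assoc, hint _ k hk, hint _ i hi.1]
  · intro g z
    have hz0 : Valued.v (z : Kinf) ≠ 0 := by
      rw [Ne, Valuation.zero_iff]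
      exact z.ne_zero
    have hz : Valued.v (z : Kinf) = exp (log (Valued.v (z : Kinf))) := (exp_log hz0).symm
    have e1 : g * bor z 0 z * Dm = g * Dm * bor z 0 z := by
      rw [_root_.mul_assoc, ← bor_comm z Dm, ← _root_.mul_assoc]
    rw [e1, hcen _ z _ hz, hcen _ z _ hz]
    ring
  · intro g
    have e1 : g * ww pinf * Dm = g * sw := by rw [_root_.mul_assoc, ww_Dm]
    have e2 : g * ww pinf = g * Dm * bor pinf 0 pinf * sw := by
      rw [ww_eq]
      simp only [_root_.mul_assoc]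
    rw [e1, hint _ _ integral_sw, e2, hint _ _ integral_sw,
      hcen _ pinf (-1) Pool.Agent.W2helper46.LL.val_pinf]
    push_cast
    ring
  · intro g
    have h1 := hsum g
    rw [hint _ _ integral_sw, hint _ _ (intg_mul integral_nu integral_sw)]
    linear_combination h1

end Pool.Agent.W2helper53.LL
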