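import Pool.Agent.W2helper53.LL.Ex
import Pool.Agent.W2helper71.LL.Add

/-!
# Project LL, piece IWA: Iwasawa decomposition over the finite adeles
-/

set_option autoImplicit false

noncomputable section

namespace Pool.Agent.W2helper53.LL

open IsDedekindDomain Polynomial Matrix WithZero
open Pool.Agent.W2helper63.LL Pool.Agent.W2helper2.LL
open scoped Classical

section loc

variable {L : Type} [Field L] [Valued L (WithZero (Multiplicative ℤ))]

theorem iwa_local {a b c d α δ η x : L} (hα : α ≠ 0) (hδ : δ ≠ 0)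
    (he : Valued.v δ = max (Valued.v c) (Valued.v d))
    (hdet : Valued.v (a * d - b * c) = Valued.v α * Valued.v δ)
    (hx : x = if Valued.v d < Valued.v c then a * δ / (α * c) else b * δ / (α * d))
    (hη : Valued.v (x - η) ≤ 1) :
    Valued.v (a / α - η / δ * c) ≤ 1 ∧ Valued.v (b / α - η / δ * d) ≤ 1 ∧
      Valued.v (c / δ) ≤ 1 ∧ Valued.v (d / δ) ≤ 1 := by
  have hvδ : Valued.v δ ≠ 0 := (Valuation.ne_zero_iff _).2 hδ
  have hvα : Valued.v α ≠ 0 := (Valuation.ne_zero_iff _).2 hα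
  have hc : Valued.v (c / δ) ≤ 1 := by
    rw [map_div₀, he]
    exact div_le_one_of_le₀ (le_max_left _ _) zero_le
  have hd : Valued.v (d / δ) ≤ 1 := by
    rw [map_div₀, he]
    exact div_le_one_of_le₀ (le_max_right _ _) zero_le
  refine ⟨?_, ?_, hc, hd⟩
  · by_cases h : Valued.v d < Valued.v c
    · rw [if_pos h] at hx
      have hc0 : c ≠ 0 := by
        rintro rfl
        rw [map_zero] at h
        exact not_lt_zero h
      have e : a / α - η / δ * c = c / δ * (x - η) := by
        rw [hx]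
        field_simp
      rw [e, map_mul]
      exact mul_le_one' hc hη
    · rw [if_neg h] at hx
      rw [not_lt] at h
      rw [max_eq_right h] at he
      have hd0 : d ≠ 0 := by
        rintro rfl
        rw [map_zero] at he
        exact hvδ he
      have e : a / α - η / δ * c = (a * d - b * c) / (α * d) + c / δ * (x - η) := by
        rw [hx]
        field_simp
        ring
      rw [e]
      refine val_sum_le ?_ ?_
      · rw [map_div₀, hdet, map_mul, ← he, div_self (mul_ne_zero hvα hvδ)]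
      · rw [map_mul]
        exact mul_le_one' hc hη
  · by_cases h : Valued.v d < Valued.v c
    · rw [if_pos h] at hx
      rw [max_eq_left h.le] at he
      have hc0 : c ≠ 0 := by
        rintro rfl
        rw [map_zero] at h
        exact not_lt_zero h
      have e : b / α - η / δ * d = -((a * d - b * c) / (α * c)) + d / δ * (x - η) := by
        rw [hx]
        field_simp
        ring
      rw [e]
      refine val_sum_le ?_ ?_
      · rw [Valuation.map_neg, map_div₀, hdet, map_mul, ← he, div_self (mul_ne_zero hvα hvδ)]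
      · rw [map_mul]
        exact mul_le_one' hd hη
    · rw [if_neg h] at hx
      rw [not_lt] at h
      rw [max_eq_right h] at he
      have hd0 : d ≠ 0 := by
        rintro rfl
        rw [map_zero] at he
        exact hvδ he
      have e : b / α - η / δ * d = d / δ * (x - η) := by
        rw [hx]
        field_simp
      rw [e, map_mul]
      exact mul_le_one' hd hη

theorem mat_eq {k : Type} [Field k] (A : k →+* L) {α δ : k} (η : k) (hα : α ≠ 0) (hδ : δ ≠ 0)
    (M : Matrix (Fin 2) (Fin 2) L) :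
    (!![α⁻¹, -α⁻¹ * (η * α) * δ⁻¹; 0, δ⁻¹] : Matrix (Fin 2) (Fin 2) k).map A * M =
      !![M 0 0 / A α - A η / A δ * M 1 0, M 0 1 / A α - A η / A δ * M 1 1;
        M 1 0 / A δ, M 1 1 / A δ] := by
  have hα' : A α ≠ 0 := (_root_.map_ne_zero A).2 hα
  have hδ' : A δ ≠ 0 := (_root_.map_ne_zero A).2 hδ
  refine Matrix.ext fun i j => ?_
  rw [Matrix.mul_apply, Fin.sum_univ_two]
  fin_cases i <;> fin_cases j
  · change A α⁻¹ * M 0 0 + A (-α⁻¹ * (η * α) * δ⁻¹) * M 1 0 = M 0 0 / A α - A η / A δ * M 1 0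
    simp only [map_mul, map_neg, map_inv₀]
    field_simp
    ring
  · change A α⁻¹ * M 0 1 + A (-α⁻¹ * (η * α) * δ⁻¹) * M 1 1 = M 0 1 / A α - A η / A δ * M 1 1
    simp only [map_mul, map_neg, map_inv₀]
    field_simp
    ring
  · change A 0 * M 0 0 + A δ⁻¹ * M 1 0 = M 1 0 / A δ
    simp only [map_zero, map_inv₀]
    field_simp
    ring
  · change A 0 * M 0 1 + A δ⁻¹ * M 1 1 = M 1 1 / A δ
    simp only [map_zero, map_inv₀]
    field_simp
    ring

end loc

theorem iwa0 : S_ADD → S_IWA := by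
  intro hAdd hCN g
  have hev : ∀ x : Af, ∀ᶠ v : Pl in Filter.cofinite, Valued.v (x v) ≤ 1 := fun x => x.2
  -- the determinant
  obtain ⟨κ, hκ0, hκ⟩ := hCN (GeneralLinearGroup.det g)
  have hdet : ∀ v : Pl, ((GeneralLinearGroup.det g : Afˣ) : Af) v =
      (g.1 0 0) v * (g.1 1 1) v - (g.1 0 1) v * (g.1 1 0) v := by
    intro v
    have h : ((GeneralLinearGroup.det g : Afˣ) : Af) = g.1 0 0 * g.1 1 1 - g.1 0 1 * g.1 1 0 :=
      Matrix.det_fin_two g.1
    rw [h]
    rfl
  have hdet0 : ∀ v : Pl, Valued.v (((GeneralLinearGroup.det g : Afˣ) : Af) v) ≠ 0 := by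
    intro v
    rw [hκ v]
    exact (Valuation.ne_zero_iff _).2 hκ0
  -- generator of the bottom row
  obtain ⟨e, hee⟩ : ∃ e : Af, ∀ v : Pl, e v =
      if Valued.v ((g.1 1 1) v) < Valued.v ((g.1 1 0) v) then (g.1 1 0) v else (g.1 1 1) v := by
    refine ⟨⟨fun v => if Valued.v ((g.1 1 1) v) < Valued.v ((g.1 1 0) v) then (g.1 1 0) v
      else (g.1 1 1) v, ?_⟩, fun v => rfl⟩
    filter_upwards [hev (g.1 1 0), hev (g.1 1 1)] with v h1 h2
    show Valued.v (_ : Kv v) ≤ 1
    split_ifs
    · exact h1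
    · exact h2
  have he : ∀ v : Pl, Valued.v (e v) = max (Valued.v ((g.1 1 0) v)) (Valued.v ((g.1 1 1) v)) := by
    intro v
    rw [hee]
    split_ifs with h
    · rw [max_eq_left h.le]
    · rw [max_eq_right (not_lt.1 h)]
  have he0 : ∀ v : Pl, e v ≠ 0 := by
    intro v h0
    have h1 := he v
    rw [h0, map_zero] at h1
    have h2 : Valued.v ((g.1 1 0) v) = 0 := le_antisymm (h1 ▸ le_max_left _ _) zero_le
    have h3 : Valued.v ((g.1 1 1) v) = 0 := le_antisymm (h1 ▸ le_max_right _ _) zero_le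
    rw [Valuation.zero_iff] at h2 h3
    apply hdet0 v
    rw [hdet, h2, h3, mul_zero, mul_zero, sub_zero, map_zero]
  have he1 : ∀ᶠ v : Pl in Filter.cofinite, Valued.v (e v) = 1 := by
    filter_upwards [hev (g.1 1 0), hev (g.1 1 1), hev (g⁻¹.1 0 1), hev (g⁻¹.1 1 1)]
      with v h1 h2 h3 h4
    refine le_antisymm ?_ ?_
    · rw [he]
      exact max_le h1 h2
    · have h5 : (g * g⁻¹).1 1 1 = 1 := by
        rw [mul_inv_cancel, Units.val_one, Matrix.one_apply_eq]
      rw [Units.val_mul, Matrix.mul_apply, Fin.sum_univ_two] at h5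
      have h6 : (g.1 1 0) v * (g⁻¹.1 0 1) v + (g.1 1 1) v * (g⁻¹.1 1 1) v = 1 := by
        have := congrArg (fun z : Af => z v) h5
        exact this
      rw [he, ← map_one (Valued.v (R := Kv v)), ← h6]
      refine (Valuation.map_add _ _ _).trans (max_le_max ?_ ?_)
      · rw [map_mul]
        exact mul_le_of_le_one_right' h3
      · rw [map_mul]
        exact mul_le_of_le_one_right' h4
  have heu : IsUnit e := FiniteAdeleRing.isUnit_iff.2 ⟨he0, he1⟩
  obtain ⟨δ, hδ0, hδ⟩ := hCN heu.unit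
  have hδ' : ∀ v : Pl, Valued.v (algebraMap K (Kv v) δ) =
      max (Valued.v ((g.1 1 0) v)) (Valued.v ((g.1 1 1) v)) := by
    intro v
    rw [Pool.Agent.W2helper71.LL.val_K, ← hδ v, ← he v]
    rfl
  obtain ⟨α, hα⟩ : ∃ α : K, α = κ / δ := ⟨_, rfl⟩
  have hα0 : α ≠ 0 := by
    rw [hα]
    exact div_ne_zero hκ0 hδ0
  have hαδ : α * δ = κ := by
    rw [hα]
    field_simp
  have hA0 : ∀ (v : Pl) (z : K), z ≠ 0 → algebraMap K (Kv v) z ≠ 0 := fun v z hz =>
    (_root_.map_ne_zero _).2 hz
  have hD : ∀ v : Pl, Valued.v ((g.1 0 0) v * (g.1 1 1) v - (g.1 0 1) v * (g.1 1 0) v) =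
      Valued.v (algebraMap K (Kv v) α) * Valued.v (algebraMap K (Kv v) δ) := by
    intro v
    rw [← hdet, hκ, ← map_mul, ← map_mul, hαδ, Pool.Agent.W2helper71.LL.val_K]
  -- the adele
  obtain ⟨x, hx⟩ : ∃ x : Af, ∀ v : Pl, x v =
      if Valued.v ((g.1 1 1) v) < Valued.v ((g.1 1 0) v) then
        (g.1 0 0) v * algebraMap K (Kv v) δ / (algebraMap K (Kv v) α * (g.1 1 0) v)
      else (g.1 0 1) v * algebraMap K (Kv v) δ / (algebraMap K (Kv v) α * (g.1 1 1) v) := by
    refine ⟨⟨fun v => if Valued.v ((g.1 1 1) v) < Valued.v ((g.1 1 0) v) then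
        (g.1 0 0) v * algebraMap K (Kv v) δ / (algebraMap K (Kv v) α * (g.1 1 0) v)
      else (g.1 0 1) v * algebraMap K (Kv v) δ / (algebraMap K (Kv v) α * (g.1 1 1) v), ?_⟩,
      fun v => rfl⟩
    have hdu : ∀ᶠ v : Pl in Filter.cofinite,
        Valued.v (((GeneralLinearGroup.det g : Afˣ) : Af) v) = 1 :=
      (FiniteAdeleRing.isUnit_iff.1 (GeneralLinearGroup.det g).isUnit).2
    filter_upwards [hev (g.1 0 0), hev (g.1 0 1), hdu, he1] with v h1 h2 h3 h4
    show Valued.v (_ : Kv v) ≤ 1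
    have h5 : Valued.v (algebraMap K (Kv v) δ) = 1 := by
      rw [hδ', ← he, h4]
    have h6 : Valued.v (algebraMap K (Kv v) α) = 1 := by
      have := hD v
      rw [← hdet, h3, h5, mul_one] at this
      exact this.symm
    rw [he] at h4
    split_ifs with h
    · rw [max_eq_left h.le] at h4
      rw [map_div₀, map_mul, map_mul, h5, h6, h4, mul_one, mul_one, div_one]
      exact h1
    · rw [max_eq_right (not_lt.1 h)] at h4
      rw [map_div₀, map_mul, map_mul, h5, h6, h4, mul_one, mul_one, div_one]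
      exact h2
  obtain ⟨η, hη⟩ := hAdd x
  obtain ⟨γ, hγ⟩ : ∃ γ : GL (Fin 2) K, γ = bor (Units.mk0 α hα0) (η * α) (Units.mk0 δ hδ0) :=
    ⟨_, rfl⟩
  refine ⟨γ, (GeneralLinearGroup.map (algebraMap K Af) γ)⁻¹ * g, ?_, ?_, ?_⟩
  · rw [hγ]
    rfl
  · intro v
    obtain ⟨l1, l2, l3, l4⟩ := iwa_local (L := Kv v) (hA0 v α hα0) (hA0 v δ hδ0) (hδ' v) (hD v)
      (hx v) (hη v)
    have hu : (GeneralLinearGroup.map (ev v)
        ((GeneralLinearGroup.map (algebraMap K Af) γ)⁻¹ * g)).1 =
        !![(g.1 0 0) v / algebraMap K (Kv v) α - algebraMap K (Kv v) η /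
            algebraMap K (Kv v) δ * (g.1 1 0) v,
          (g.1 0 1) v / algebraMap K (Kv v) α - algebraMap K (Kv v) η /
            algebraMap K (Kv v) δ * (g.1 1 1) v;
          (g.1 1 0) v / algebraMap K (Kv v) δ, (g.1 1 1) v / algebraMap K (Kv v) δ] := by
      have e1 : (GeneralLinearGroup.map (ev v)
        ((GeneralLinearGroup.map (algebraMap K Af) γ)⁻¹ * g)).1 =
        (γ⁻¹.1.map (algebraMap K (Kv v))) * (g.1.map (ev v)) := by
        rw [map_mul, ← map_inv, Units.val_mul]
        rfl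
      have e2 : γ⁻¹.1 = !![α⁻¹, -α⁻¹ * (η * α) * δ⁻¹; 0, δ⁻¹] := by
        rw [hγ]
        rfl
      rw [e1, e2]
      exact mat_eq (algebraMap K (Kv v)) η hα0 hδ0 (g.1.map (ev v))
    refine integral_of ?_ ?_
    · intro i j
      rw [hu]
      fin_cases i <;> fin_cases j
      · exact l1
      · exact l2
      · exact l3
      · exact l4
    · rw [hu, Matrix.det_fin_two_of]
      have hα' := hA0 v α hα0
      have hδ'' := hA0 v δ hδ0
      have e3 : ((g.1 0 0) v / algebraMap K (Kv v) α - algebraMap K (Kv v) η /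
          algebraMap K (Kv v) δ * (g.1 1 0) v) * ((g.1 1 1) v / algebraMap K (Kv v) δ) -
          ((g.1 0 1) v / algebraMap K (Kv v) α - algebraMap K (Kv v) η /
            algebraMap K (Kv v) δ * (g.1 1 1) v) * ((g.1 1 0) v / algebraMap K (Kv v) δ) =
          ((g.1 0 0) v * (g.1 1 1) v - (g.1 0 1) v * (g.1 1 0) v) /
            (algebraMap K (Kv v) α * algebraMap K (Kv v) δ) := by
        field_simp
        ring
      rw [e3, map_div₀, map_mul, hD v, div_self]
      exact mul_ne_zero ((Valuation.ne_zero_iff _).2 hα') ((Valuation.ne_zero_iff _).2 hδ'')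
  · rw [mul_inv_cancel_left]

/-- **IWA** -/
theorem iwa : S_IWA := iwa0 Pool.Agent.W2helper71.LL.add

end Pool.Agent.W2helper53.LL
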